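import Pool.Agent.P8H58.DL.StmA

/-! # Project DL, package CC: every irreducible trace of the stabiliser is a component (Clifford induction) -/

set_option autoImplicit false

open scoped Classical

noncomputable section

namespace Pool.Agent.P8H54.DL

open Pool.Agent.P8H58.DL Pool.Agent.Y63.NV

section chars

variable {F : Type} [Field F] {V : Type} [CommGroup V]

theorem l_inv (l : V →* F) (v : V) : l v⁻¹ = (l v)⁻¹ := by
  apply eq_inv_of_mul_eq_one_left
  rw [← map_mul, inv_mul_cancel, map_one]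

theorem l_ne (l : V →* F) (v : V) : l v ≠ 0 := by
  intro h
  have h1 : l (v * v⁻¹) = 0 := by rw [map_mul, h, zero_mul]
  rw [mul_inv_cancel, map_one] at h1
  exact one_ne_zero h1

/-- orthogonality of two linear characters -/
theorem orth [Finite V] (l m : V →* F) (h : l ≠ m) : ∑ᶠ v : V, (l v)⁻¹ * m v = 0 := by
  have : Fintype V := Fintype.ofFinite V
  rw [finsum_eq_sum_of_fintype]
  let c : V →* F :=
    { toFun := fun v => (l v)⁻¹ * m v
      map_one' := by simp
      map_mul' := fun a b => by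
        simp only [map_mul, mul_inv]
        ring }
  have hc : c ≠ 1 := by
    intro h1
    apply h
    ext v
    have h2 : c v = 1 := by rw [h1]; rfl
    change (l v)⁻¹ * m v = 1 at h2
    have h3 := l_ne l v
    field_simp at h2
    exact h2.symm
  exact sum_hom_units_eq_zero c hc

theorem orth_self [Finite V] (l : V →* F) : ∑ᶠ v : V, (l v)⁻¹ * l v = (Nat.card V : F) := by
  have : Fintype V := Fintype.ofFinite V
  rw [finsum_eq_sum_of_fintype, Finset.sum_congr rfl fun v _ => inv_mul_cancel₀ (l_ne l v)]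
  simp

end chars

section

variable {F : Type} [Field F] {V H : Type} [CommGroup V] [Group H] {φ : H →* MulAut V}

/-- the character `l ∘ h` -/
def tw (φ : H →* MulAut V) (l : V →* F) (h : H) : V →* F := l.comp (φ h).toMonoidHom

theorem tw_apply (l : V →* F) (h : H) (v : V) : tw φ l h v = l (φ h v) := rfl

variable {p : ℕ} {l : V →* F} {S : Subgroup H}

theorem tw_eq (hD : Dat p φ l S) (h : H) : tw φ l h = l ↔ h ∈ S := by
  rw [hD.2 h]
  constructor
  · intro h1 v
    rw [← tw_apply (φ := φ) l h v, h1]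
  · intro h1
    ext v
    exact h1 v

theorem orth_tw [Finite V] (hD : Dat p φ l S) (h : H) :
    ∑ᶠ v : V, (l v)⁻¹ * l (φ h v) = if h ∈ S then (Nat.card V : F) else 0 := by
  by_cases hh : h ∈ S
  · rw [if_pos hh, ← orth_self l]
    refine finsum_congr fun v => ?_
    rw [(hD.2 h).1 hh v]
  · rw [if_neg hh]
    exact orth l (tw φ l h) (fun h1 => hh ((tw_eq hD h).1 h1.symm))

variable {U : Type} [AddCommGroup U] [Module F U] (σ : Representation F S U)

/-- the induced space -/
def Wsp : Submodule F (H → U) where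
  carrier := {f | ∀ (s : S) (h : H), f (s * h) = σ s (f h)}
  zero_mem' := fun s h => by simp
  add_mem' := by
    intro a b ha hb s h
    rw [Pi.add_apply, Pi.add_apply, ha, hb, map_add]
  smul_mem' := by
    intro c a ha s h
    rw [Pi.smul_apply, Pi.smul_apply, ha, map_smul]

theorem Wsp_val (f : Wsp σ) (s : S) (h : H) : f.1 (s * h) = σ s (f.1 h) := f.2 s h

/-- the action of an element -/
def actL (hD : Dat p φ l S) (g : V ⋊[φ] H) : Wsp σ →ₗ[F] Wsp σ where
  toFun f := ⟨fun h => l (φ h g.left) • f.1 (h * g.right), by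
    intro s h
    have h1 : φ ((s : H) * h) g.left = φ (s : H) (φ h g.left) := by
      rw [map_mul]
      rfl
    change l (φ ((s : H) * h) g.left) • f.1 ((s : H) * h * g.right) = σ s (l (φ h g.left) • f.1 (h * g.right))
    rw [mul_assoc, Wsp_val, map_smul, h1, (hD.2 s).1 s.2]⟩
  map_add' a b := by
    ext h
    exact smul_add _ _ _
  map_smul' c a := by
    ext h
    exact smul_comm _ _ _

theorem actL_val (hD : Dat p φ l S) (g : V ⋊[φ] H) (f : Wsp σ) (h : H) :
    (actL σ hD g f).1 h = l (φ h g.left) • f.1 (h * g.right) := rfl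

/-- the induced representation -/
def indR (hD : Dat p φ l S) : Representation F (V ⋊[φ] H) (Wsp σ) where
  toFun := actL σ hD
  map_one' := by
    ext f h
    rw [actL_val]
    simp
  map_mul' a b := by
    ext f h
    rw [actL_val]
    change _ = (actL σ hD a (actL σ hD b f)).1 h
    rw [actL_val, actL_val, SemidirectProduct.mul_left, SemidirectProduct.mul_right, map_mul, map_mul, map_mul,
      smul_smul, mul_assoc]
    rfl

theorem indR_val (hD : Dat p φ l S) (g : V ⋊[φ] H) (f : Wsp σ) (h : H) :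
    (indR σ hD g f).1 h = l (φ h g.left) • f.1 (h * g.right) := rfl

/-- evaluation at one -/
def ev : Wsp σ →ₗ[F] U where
  toFun f := f.1 1
  map_add' _ _ := rfl
  map_smul' _ _ := rfl

/-- functions with support in `S` -/
def io : U →ₗ[F] Wsp σ where
  toFun u := ⟨fun h => if hh : h ∈ S then σ ⟨h, hh⟩ u else 0, by
    intro s h
    change (if hh : (s : H) * h ∈ S then σ ⟨(s : H) * h, hh⟩ u else 0) =
      σ s (if hh : h ∈ S then σ ⟨h, hh⟩ u else 0)
    by_cases hh : h ∈ S
    · have h1 : (s : H) * h ∈ S := S.mul_mem s.2 hh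
      rw [dif_pos hh, dif_pos h1]
      have h2 : (⟨(s : H) * h, h1⟩ : S) = s * ⟨h, hh⟩ := rfl
      rw [h2, map_mul]
      rfl
    · have h1 : (s : H) * h ∉ S := fun h1 => hh ((Subgroup.mul_mem_cancel_left S s.2).1 h1)
      rw [dif_neg hh, dif_neg h1, map_zero]⟩
  map_add' a b := by
    ext h
    change (if hh : h ∈ S then σ ⟨h, hh⟩ (a + b) else 0) =
      (if hh : h ∈ S then σ ⟨h, hh⟩ a else 0) + (if hh : h ∈ S then σ ⟨h, hh⟩ b else 0)
    split_ifs
    · rw [map_add]
    · rw [add_zero]
  map_smul' c a := by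
    ext h
    change (if hh : h ∈ S then σ ⟨h, hh⟩ (c • a) else 0) = c • (if hh : h ∈ S then σ ⟨h, hh⟩ a else 0)
    split_ifs
    · rw [map_smul]
    · rw [smul_zero]

theorem io_val (u : U) (h : H) : (io σ u).1 h = if hh : h ∈ S then σ ⟨h, hh⟩ u else 0 := rfl

theorem ev_io (u : U) : ev σ (io σ u) = u := by
  change (io σ u).1 1 = u
  rw [io_val, dif_pos S.one_mem]
  have h1 : (⟨1, S.one_mem⟩ : S) = 1 := rfl
  rw [h1, map_one]
  rfl

theorem io_eq (f : Wsp σ) (h : H) : (io σ (f.1 1)).1 h = if h ∈ S then f.1 h else 0 := by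
  rw [io_val]
  split_ifs with hh
  · have h1 := Wsp_val σ f ⟨h, hh⟩ 1
    rw [mul_one] at h1
    exact h1.symm
  · rfl

/-- the projection to the component -/
theorem e_eq [Finite V] (hD : Dat p φ l S) (hV : (Nat.card V : F) ≠ 0) (f : Wsp σ) :
    (Nat.card V : F)⁻¹ • (∑ᶠ v : V, (l v)⁻¹ • indR σ hD (SemidirectProduct.inl v) f) = io σ (f.1 1) := by
  have : Fintype V := Fintype.ofFinite V
  rw [finsum_eq_sum_of_fintype]
  ext h
  rw [io_eq]
  have h1 : ((Nat.card V : F)⁻¹ • (∑ v : V, (l v)⁻¹ • indR σ hD (SemidirectProduct.inl v) f)).1 h =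
      (Nat.card V : F)⁻¹ • ((∑ᶠ v : V, (l v)⁻¹ * l (φ h v)) • f.1 h) := by
    rw [finsum_eq_sum_of_fintype, Finset.sum_smul]
    change (Nat.card V : F)⁻¹ • ((∑ v : V, (l v)⁻¹ • indR σ hD (SemidirectProduct.inl v) f : Wsp σ) : H → U) h = _
    congr 1
    rw [AddSubmonoidClass.coe_finsetSum, Finset.sum_apply]
    refine Finset.sum_congr rfl fun v _ => ?_
    change (l v)⁻¹ • (indR σ hD (SemidirectProduct.inl v) f).1 h = _
    rw [indR_val, SemidirectProduct.left_inl, SemidirectProduct.right_inl, mul_one, smul_smul]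
  rw [h1, orth_tw hD h]
  split_ifs
  · rw [smul_smul, inv_mul_cancel₀ hV, one_smul]
  · rw [zero_smul, smul_zero]

theorem indR_s (hD : Dat p φ l S) (s : S) (f : Wsp σ) :
    (indR σ hD (SemidirectProduct.inr (s : H)) f).1 1 = σ s (f.1 1) := by
  rw [indR_val, SemidirectProduct.left_inr, SemidirectProduct.right_inr, one_mul, map_one, map_one, one_smul]
  have h1 := Wsp_val σ f s 1
  rw [mul_one] at h1
  exact h1

theorem io_s (hD : Dat p φ l S) (s : S) (u : U) :
    indR σ hD (SemidirectProduct.inr (s : H)) (io σ u) = io σ (σ s u) := by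
  ext h
  rw [indR_val, SemidirectProduct.left_inr, SemidirectProduct.right_inr, map_one, map_one, one_smul, io_val, io_val]
  by_cases hh : h ∈ S
  · have h1 : h * s ∈ S := S.mul_mem hh s.2
    rw [dif_pos hh, dif_pos h1]
    have h2 : (⟨h * s, h1⟩ : S) = ⟨h, hh⟩ * s := rfl
    rw [h2, map_mul]
    rfl
  · have h1 : h * s ∉ S := fun h1 => hh ((Subgroup.mul_mem_cancel_right S s.2).1 h1)
    rw [dif_neg hh, dif_neg h1]

theorem comp_ind [Finite V] [Finite H] [FiniteDimensional F U] (hD : Dat p φ l S) (hV : (Nat.card V : F) ≠ 0) :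
    comp l S (indR σ hD).character = σ.character := by
  have : Fintype V := Fintype.ofFinite V
  funext s
  unfold comp
  have h1 : ∀ v : V, (indR σ hD).character ⟨v, s⟩ =
      LinearMap.trace F (Wsp σ) (indR σ hD (SemidirectProduct.inl v) * indR σ hD (SemidirectProduct.inr (s : H))) := by
    intro v
    rw [← map_mul, ← SemidirectProduct.mk_eq_inl_mul_inr]
    rfl
  have h2 : (Nat.card V : F)⁻¹ * ∑ᶠ v : V, (l v)⁻¹ * (indR σ hD).character ⟨v, s⟩ =
      LinearMap.trace F (Wsp σ) ((Nat.card V : F)⁻¹ • ∑ v : V, (l v)⁻¹ • (indR σ hD (SemidirectProduct.inl v) *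
        indR σ hD (SemidirectProduct.inr (s : H)))) := by
    rw [finsum_eq_sum_of_fintype, map_smul, map_sum, smul_eq_mul]
    congr 1
    refine Finset.sum_congr rfl fun v _ => ?_
    rw [map_smul, smul_eq_mul, h1]
  rw [h2]
  have h3 : ((Nat.card V : F)⁻¹ • ∑ v : V, (l v)⁻¹ • (indR σ hD (SemidirectProduct.inl v) *
        indR σ hD (SemidirectProduct.inr (s : H))) : Wsp σ →ₗ[F] Wsp σ) = (io σ) ∘ₗ (σ s ∘ₗ ev σ) := by
    apply LinearMap.ext
    intro f
    rw [LinearMap.smul_apply, LinearMap.sum_apply]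
    have h4 := e_eq σ hD hV (indR σ hD (SemidirectProduct.inr (s : H)) f)
    rw [finsum_eq_sum_of_fintype, indR_s] at h4
    exact h4
  rw [h3, LinearMap.trace_comp_comm']
  have h4 : (σ s ∘ₗ ev σ) ∘ₗ io σ = σ s := by
    apply LinearMap.ext
    intro u
    rw [LinearMap.comp_apply, LinearMap.comp_apply, ev_io]
  rw [h4]
  rfl

theorem decomp [Finite H] (hD : Dat p φ l S) (f : Wsp σ) :
    ∃ (ι : Type) (_ : Fintype ι) (g : ι → V ⋊[φ] H) (u : ι → U), f = ∑ i, indR σ hD (g i) (io σ (u i)) := by
  have hq : Fintype (Quotient (QuotientGroup.rightRel S)) := Fintype.ofFinite _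
  refine ⟨Quotient (QuotientGroup.rightRel S), hq, fun q => SemidirectProduct.inr (q.out)⁻¹,
    fun q => f.1 q.out, ?_⟩
  ext h
  have h1 : ((∑ q : Quotient (QuotientGroup.rightRel S), indR σ hD (SemidirectProduct.inr (q.out)⁻¹)
      (io σ (f.1 q.out)) : Wsp σ) : H → U) h = ∑ q : Quotient (QuotientGroup.rightRel S),
        (if q = Quotient.mk (QuotientGroup.rightRel S) h then f.1 h else 0) := by
    rw [AddSubmonoidClass.coe_finsetSum, Finset.sum_apply]
    refine Finset.sum_congr rfl fun q _ => ?_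
    change (indR σ hD (SemidirectProduct.inr (q.out)⁻¹) (io σ (f.1 q.out))).1 h = _
    rw [indR_val, SemidirectProduct.left_inr, SemidirectProduct.right_inr, map_one, map_one, one_smul, io_val]
    have h2 : h * (q.out)⁻¹ ∈ S ↔ q = Quotient.mk (QuotientGroup.rightRel S) h := by
      rw [← QuotientGroup.rightRel_apply]
      constructor
      · intro h3
        rw [← Quotient.out_eq q]
        exact Quotient.sound h3
      · intro h3
        have h4 : Quotient.mk (QuotientGroup.rightRel S) q.out = Quotient.mk (QuotientGroup.rightRel S) h := by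
          rw [Quotient.out_eq q]
          exact h3
        exact Quotient.exact h4
    by_cases hh : h * (q.out)⁻¹ ∈ S
    · rw [dif_pos hh, if_pos (h2.1 hh)]
      have h3 := Wsp_val σ f ⟨h * (q.out)⁻¹, hh⟩ q.out
      rw [inv_mul_cancel_right] at h3
      exact h3.symm
    · rw [dif_neg hh, if_neg (fun h3 => hh (h2.2 h3))]
  change f.1 h = ((∑ q : Quotient (QuotientGroup.rightRel S), indR σ hD (SemidirectProduct.inr (q.out)⁻¹)
      (io σ (f.1 q.out)) : Wsp σ) : H → U) h
  rw [h1, Finset.sum_ite_eq']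
  simp

theorem ind_irr [Finite V] [Finite H] (hD : Dat p φ l S) (hV : (Nat.card V : F) ≠ 0) (hσ : σ.IsIrreducible) :
    (indR σ hD).IsIrreducible := by
  have : Fintype V := Fintype.ofFinite V
  have hne : Nontrivial U := by
    by_contra h1
    rw [not_nontrivial_iff_subsingleton] at h1
    obtain ⟨a, b, hab⟩ := hσ.toNontrivial.exists_pair_ne
    apply hab
    apply Subrepresentation.toSubmodule_injective
    exact Subsingleton.elim _ _
  have hneW : Nontrivial (Wsp σ) := by
    obtain ⟨u, hu⟩ := exists_ne (0 : U)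
    refine ⟨io σ u, 0, fun h1 => hu ?_⟩
    have h2 := ev_io σ u
    rw [h1, map_zero] at h2
    exact h2.symm
  have hnt : Nontrivial (Subrepresentation (indR σ hD)) := by
    refine ⟨⊥, ⊤, fun h1 => ?_⟩
    have h2 : (⊥ : Submodule F (Wsp σ)) = ⊤ := congrArg Subrepresentation.toSubmodule h1
    exact bot_ne_top h2
  refine { toNontrivial := hnt, eq_bot_or_eq_top := ?_ }
  intro M
  by_cases hM : M.toSubmodule = ⊥
  · left
    exact Subrepresentation.toSubmodule_injective hM
  right
  obtain ⟨f, hf, hf0⟩ := Submodule.exists_mem_ne_zero_of_ne_bot hM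
  have hio : ∀ f ∈ M.toSubmodule, io σ (f.1 1) ∈ M.toSubmodule := by
    intro f hf
    rw [← e_eq σ hD hV f, finsum_eq_sum_of_fintype]
    exact M.toSubmodule.smul_mem _ (Submodule.sum_mem _ fun v _ =>
      M.toSubmodule.smul_mem _ (M.apply_mem_toSubmodule _ hf))
  obtain ⟨h, hh⟩ : ∃ h, f.1 h ≠ 0 := by
    by_contra hcon
    push Not at hcon
    exact hf0 (Subtype.ext (funext hcon))
  let N : Subrepresentation σ :=
    { toSubmodule := M.toSubmodule.comap (io σ)
      apply_mem_toSubmodule := by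
        intro s u hu
        rw [Submodule.mem_comap] at hu ⊢
        rw [← io_s σ hD]
        exact M.apply_mem_toSubmodule _ hu }
  have hN : N ≠ ⊥ := by
    intro h1
    have h2 : f.1 h ∈ N.toSubmodule := by
      change io σ (f.1 h) ∈ M.toSubmodule
      have h3 := hio _ (M.apply_mem_toSubmodule (SemidirectProduct.inr h) hf)
      rw [indR_val, SemidirectProduct.left_inr, SemidirectProduct.right_inr, map_one, map_one, one_smul,
        one_mul] at h3
      exact h3
    rw [h1] at h2
    exact hh ((Submodule.mem_bot F).1 h2)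
  have hN' : N = ⊤ := (hσ.eq_bot_or_eq_top N).resolve_left hN
  have hall : ∀ u, io σ u ∈ M.toSubmodule := by
    intro u
    have h1 : u ∈ N.toSubmodule := by
      rw [hN']
      exact Submodule.mem_top
    exact h1
  apply Subrepresentation.toSubmodule_injective
  change M.toSubmodule = ⊤
  rw [eq_top_iff]
  intro w _
  obtain ⟨ι, _, g, u, hw⟩ := decomp σ hD w
  rw [hw]
  exact Submodule.sum_mem _ fun i _ => M.apply_mem_toSubmodule _ (hall _)

end

theorem card_ne {p : ℕ} [Fact p.Prime] {F : Type} [Field F] [CharP F p] {V : Type} (h : ¬ p ∣ Nat.card V) :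
    (Nat.card V : F) ≠ 0 := by
  intro h1
  exact h ((CharP.cast_eq_zero_iff F p _).1 h1)

theorem cc : S_CC := by
  intro p _ F _ _ _ V H _ _ _ _ φ l S hD ψ hψ
  obtain ⟨U, _, _, _, σ, hσ, rfl⟩ := hψ
  have hV : (Nat.card V : F) ≠ 0 := card_ne hD.1
  refine ⟨(indR σ hD).character, ⟨Wsp σ, inferInstance, inferInstance, inferInstance, indR σ hD,
    ind_irr σ hD hV hσ, rfl⟩, comp_ind σ hD hV⟩

end Pool.Agent.P8H54.DL
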