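import Pool.Agent.P8H54.DL.Cc
import Pool.Agent.Y705.NV.Schur
import Pool.Agent.Y914.NV.Irr

/-! # Project DL, package CE: preimages of class functions -/

set_option autoImplicit false

open scoped Classical

noncomputable section

namespace Pool.Agent.P8H54.DL

open Pool.Agent.P8H58.DL Pool.Agent.Y63.NV

theorem irr_ne {F : Type} [Field F] [IsAlgClosed F] {N : Type} [Group N] [Finite N] {φ : N → F}
    (h : IsIrrTrace φ) : ∃ x, φ x ≠ 0 :=
  (Pool.Agent.Y705.NV.schur Pool.Agent.Y914.NV.irr F N φ h).1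

section

variable {F : Type} [Field F] {V H : Type} [CommGroup V] [Group H] {φ : H →* MulAut V}
  {p : ℕ} {l : V →* F} {S : Subgroup H}

theorem phi_mul (a b : H) (v : V) : φ (a * b) v = φ a (φ b v) := by
  rw [map_mul]
  rfl

/-- the terms of `lf` -/
def tt (φ : H →* MulAut V) (l : V →* F) (S : Subgroup H) (y : S → F) (r : H) (x : V ⋊[φ] H) : F :=
  if h : r⁻¹ * x.right * r ∈ S then (l (φ r⁻¹ x.left))⁻¹ * y ⟨_, h⟩ else 0

theorem tt_of (l : V →* F) (S : Subgroup H) (y : S → F) (r : H) (x : V ⋊[φ] H) (k : H) (hk : k = r⁻¹ * x.right * r) :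
    tt φ l S y r x = if h : k ∈ S then (l (φ r⁻¹ x.left))⁻¹ * y ⟨k, h⟩ else 0 := by
  subst hk
  rfl

theorem lf_eq (y : S → F) (x : V ⋊[φ] H) :
    lf l S y x = (Nat.card V : F)⁻¹ * ∑ᶠ q : H ⧸ S, tt φ l S y q.out x := rfl

theorem tt_mul (hD : Dat p φ l S) {y : S → F} (hy : IsClassFun y) (r : H) (s : S) (x : V ⋊[φ] H) :
    tt φ l S y (r * s) x = tt φ l S y r x := by
  have hk : (s : H)⁻¹ * (r⁻¹ * x.right * r) * s = (r * s)⁻¹ * x.right * (r * s) := by group
  rw [tt_of l S y (r * s) x _ hk, tt]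
  by_cases h : r⁻¹ * x.right * r ∈ S
  · have h1 : (s : H)⁻¹ * (r⁻¹ * x.right * r) * s ∈ S := S.mul_mem (S.mul_mem (S.inv_mem s.2) h) s.2
    rw [dif_pos h, dif_pos h1]
    have h2 := hy s⁻¹ ⟨_, h⟩
    have h3 : (s⁻¹ * (⟨_, h⟩ : S) * s⁻¹⁻¹ : S) = ⟨(s : H)⁻¹ * (r⁻¹ * x.right * r) * s, h1⟩ := by
      apply Subtype.ext
      change (s : H)⁻¹ * (r⁻¹ * x.right * r) * ((s : H)⁻¹)⁻¹ = _
      rw [inv_inv]
    rw [h3] at h2
    rw [h2]
    have h4 : φ (r * s)⁻¹ x.left = φ (s : H)⁻¹ (φ r⁻¹ x.left) := by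
      rw [mul_inv_rev, map_mul]
      rfl
    rw [h4, (hD.2 (s : H)⁻¹).1 (S.inv_mem s.2)]
  · have h1 : (s : H)⁻¹ * (r⁻¹ * x.right * r) * s ∉ S := by
      intro h1
      apply h
      rw [Subgroup.mul_mem_cancel_right S s.2, Subgroup.mul_mem_cancel_left S (S.inv_mem s.2)] at h1
      exact h1
    rw [dif_neg h, dif_neg h1]

theorem tt_out (hD : Dat p φ l S) {y : S → F} (hy : IsClassFun y) (r : H) (x : V ⋊[φ] H) :
    tt φ l S y ((r : H ⧸ S)).out x = tt φ l S y r x := by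
  obtain ⟨s, hs⟩ := QuotientGroup.mk_out_eq_mul S r
  rw [hs, tt_mul hD hy]

theorem tt_conj (hD : Dat p φ l S) (y : S → F) (r : H) (g x : V ⋊[φ] H) :
    tt φ l S y r (g * x * g⁻¹) = tt φ l S y (g.right⁻¹ * r) x := by
  have hk : (g.right⁻¹ * r)⁻¹ * x.right * (g.right⁻¹ * r) = r⁻¹ * (g * x * g⁻¹).right * r := by
    rw [SemidirectProduct.mul_right, SemidirectProduct.mul_right, SemidirectProduct.inv_right]
    group
  rw [tt_of l S y r _ _ hk, tt]
  by_cases h : (g.right⁻¹ * r)⁻¹ * x.right * (g.right⁻¹ * r) ∈ S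
  · rw [dif_pos h, dif_pos h]
    congr 2
    have h1 : φ r⁻¹ (g * x * g⁻¹).left = φ r⁻¹ g.left * φ (g.right⁻¹ * r)⁻¹ x.left *
        (φ ((g.right⁻¹ * r)⁻¹ * x.right * (g.right⁻¹ * r)) (φ r⁻¹ g.left))⁻¹ := by
      rw [SemidirectProduct.mul_left, SemidirectProduct.mul_left, SemidirectProduct.mul_right,
        SemidirectProduct.inv_left, map_mul, map_mul]
      have e1 : φ r⁻¹ (φ g.right x.left) = φ (g.right⁻¹ * r)⁻¹ x.left := by
        have e2 : (g.right⁻¹ * r)⁻¹ = r⁻¹ * g.right := by group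
        rw [e2, map_mul]
        rfl
      have e3 : φ r⁻¹ (φ (g.right * x.right) (φ g.right⁻¹ g.left⁻¹)) =
          (φ ((g.right⁻¹ * r)⁻¹ * x.right * (g.right⁻¹ * r)) (φ r⁻¹ g.left))⁻¹ := by
        have e4 : φ r⁻¹ (φ (g.right * x.right) (φ g.right⁻¹ g.left⁻¹)) =
            φ (r⁻¹ * (g.right * x.right) * g.right⁻¹) g.left⁻¹ := by
          rw [phi_mul (r⁻¹ * (g.right * x.right)), phi_mul r⁻¹]
        have e5 : φ ((g.right⁻¹ * r)⁻¹ * x.right * (g.right⁻¹ * r)) (φ r⁻¹ g.left) =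
            φ ((g.right⁻¹ * r)⁻¹ * x.right * (g.right⁻¹ * r) * r⁻¹) g.left := by
          rw [map_mul _ _ r⁻¹]
          rfl
        have e6 : (g.right⁻¹ * r)⁻¹ * x.right * (g.right⁻¹ * r) * r⁻¹ = r⁻¹ * (g.right * x.right) * g.right⁻¹ := by
          group
        rw [e4, e5, e6, map_inv]
      rw [e1, e3]
    rw [h1, map_mul, map_mul, l_inv, (hD.2 _).1 h]
    have h2 := l_ne l (φ r⁻¹ g.left)
    field_simp
  · rw [dif_neg h, dif_neg h]

theorem lf_class (hD : Dat p φ l S) {y : S → F} (hy : IsClassFun y) : IsClassFun (lf (φ := φ) l S y) := by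
  intro g x
  rw [lf_eq, lf_eq]
  congr 1
  have h1 : ∀ q : H ⧸ S, tt φ l S y q.out (g * x * g⁻¹) =
      tt φ l S y ((MulAction.toPerm g.right⁻¹ : Equiv.Perm (H ⧸ S)) q).out x := by
    intro q
    rw [tt_conj hD]
    have h2 : (MulAction.toPerm g.right⁻¹ : Equiv.Perm (H ⧸ S)) q = ((g.right⁻¹ * q.out : H) : H ⧸ S) := by
      rw [MulAction.toPerm_apply]
      conv_lhs => rw [← QuotientGroup.out_eq' q]
      rfl
    rw [h2, tt_out hD hy]
  rw [finsum_congr h1]
  exact finsum_comp_equiv (MulAction.toPerm g.right⁻¹ : Equiv.Perm (H ⧸ S)) (f := fun q => tt φ l S y q.out x)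

theorem cl_lf [Finite V] [Finite H] (hD : Dat p φ l S) (hV : (Nat.card V : F) ≠ 0) {y : S → F}
    (hy : IsClassFun y) : cl l S (lf (φ := φ) l S y) = y := by
  have : Fintype V := Fintype.ofFinite V
  have : Fintype (H ⧸ S) := Fintype.ofFinite _
  funext s
  unfold cl
  have h1 : ∀ v : V, l v * lf (φ := φ) l S y ⟨v, s⟩ =
      (Nat.card V : F)⁻¹ * ∑ q : H ⧸ S, l v * tt φ l S y q.out ⟨v, s⟩ := by
    intro v
    rw [lf_eq, finsum_eq_sum_of_fintype, ← Finset.mul_sum]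
    ring
  rw [finsum_congr h1, finsum_eq_sum_of_fintype, ← Finset.mul_sum, Finset.sum_comm]
  have h2 : ∀ q : H ⧸ S, ∑ v : V, l v * tt φ l S y q.out ⟨v, s⟩ =
      if q = ((1 : H) : H ⧸ S) then (Nat.card V : F) * y s else 0 := by
    intro q
    by_cases hq : q = ((1 : H) : H ⧸ S)
    · rw [if_pos hq, hq]
      have h3 : ∀ v : V, l v * tt φ l S y (((1 : H) : H ⧸ S)).out ⟨v, s⟩ = (l v)⁻¹ * l v * y s := by
        intro v
        rw [tt_out hD hy, tt_of l S y 1 ⟨v, s⟩ (s : H) (by simp), dif_pos s.2]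
        have h4 : φ (1 : H)⁻¹ v = v := by
          rw [inv_one, map_one]
          rfl
        change l v * ((l (φ (1 : H)⁻¹ v))⁻¹ * y ⟨s, s.2⟩) = _
        rw [h4]
        ring
      rw [Finset.sum_congr rfl fun v _ => h3 v, ← Finset.sum_mul, ← finsum_eq_sum_of_fintype, orth_self]
    · rw [if_neg hq]
      have h3 : q.out ∉ S := by
        intro h4
        apply hq
        rw [← QuotientGroup.out_eq' q]
        rw [QuotientGroup.eq]
        rw [mul_one]
        exact S.inv_mem h4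
      by_cases hh : (q.out)⁻¹ * (s : H) * q.out ∈ S
      · have h4 : ∀ v : V, l v * tt φ l S y q.out ⟨v, s⟩ = (tw φ l (q.out)⁻¹ v)⁻¹ * l v * y ⟨_, hh⟩ := by
          intro v
          rw [tt_of l S y q.out ⟨v, s⟩ _ rfl, dif_pos hh, tw_apply]
          ring
        rw [Finset.sum_congr rfl fun v _ => h4 v, ← Finset.sum_mul, ← finsum_eq_sum_of_fintype, orth, zero_mul]
        intro h5
        exact h3 ((Subgroup.inv_mem_iff S).1 ((tw_eq hD _).1 h5))
      · apply Finset.sum_eq_zero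
        intro v _
        rw [tt_of l S y q.out ⟨v, s⟩ _ rfl, dif_neg hh, mul_zero]
  rw [Finset.sum_congr rfl fun q _ => h2 q, Finset.sum_ite_eq']
  simp only [Finset.mem_univ, if_true]
  rw [inv_mul_cancel_left₀ hV]

theorem tw_zero [Finite V] {W : Type} [AddCommGroup W] [Module F W] (ρ : Representation F (V ⋊[φ] H) W)
    (h0 : ∑ᶠ v : V, (l v)⁻¹ • ρ (SemidirectProduct.inl v) = 0) (r : H) :
    ∑ᶠ v : V, (l (φ r⁻¹ v))⁻¹ • ρ (SemidirectProduct.inl v) = 0 := by
  have : Fintype V := Fintype.ofFinite V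
  have h1 : ∑ᶠ v : V, (l (φ r⁻¹ v))⁻¹ • ρ (SemidirectProduct.inl v) =
      ∑ᶠ v : V, (l v)⁻¹ • ρ (SemidirectProduct.inl (φ r v)) := by
    rw [← finsum_comp_equiv (φ r).toEquiv]
    refine finsum_congr fun v => ?_
    have h2 : φ r⁻¹ ((φ r).toEquiv v) = v := by
      change φ r⁻¹ (φ r v) = v
      have h3 : (φ r⁻¹ * φ r) v = v := by
        rw [← map_mul, inv_mul_cancel, map_one]
        rfl
      exact h3
    rw [h2]
    rfl
  have h2 : ∀ v : V, ρ (SemidirectProduct.inl (φ r v)) =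
      ρ (SemidirectProduct.inr r) * ρ (SemidirectProduct.inl v) * ρ (SemidirectProduct.inr r⁻¹) := by
    intro v
    rw [← map_mul, ← map_mul, SemidirectProduct.inl_aut]
  have h3 : ∑ v : V, (l v)⁻¹ • ρ (SemidirectProduct.inl (φ r v)) =
      ρ (SemidirectProduct.inr r) * (∑ v : V, (l v)⁻¹ • ρ (SemidirectProduct.inl v)) *
        ρ (SemidirectProduct.inr r⁻¹) := by
    rw [Finset.mul_sum, Finset.sum_mul]
    refine Finset.sum_congr rfl fun v _ => ?_
    rw [h2, mul_smul_comm, smul_mul_assoc]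
  rw [h1, finsum_eq_sum_of_fintype, h3]
  rw [finsum_eq_sum_of_fintype] at h0
  rw [h0, mul_zero, zero_mul]

end

theorem ce : S_CE := by
  intro CA p _ F _ _ _ V H _ _ _ _ φ l S hD y hy
  have hV : (Nat.card V : F) ≠ 0 := card_ne hD.1
  refine ⟨lf_class hD hy, cl_lf hD hV hy, ?_⟩
  intro θ hθ hcomp x
  obtain ⟨W, _, _, _, ρ, hρ, rfl⟩ := hθ
  have h0 : ∑ᶠ v : V, (l v)⁻¹ • ρ (SemidirectProduct.inl v) = 0 := by
    rcases CA p F V H φ l S hD W ρ hρ with h | h
    · exact h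
    · exfalso
      obtain ⟨s, hs⟩ := irr_ne h
      rw [hcomp] at hs
      exact hs rfl
  have : Fintype V := Fintype.ofFinite V
  have : Fintype H := Fintype.ofFinite H
  have : Fintype (H ⧸ S) := Fintype.ofFinite _
  rw [← finsum_comp_equiv (SemidirectProduct.equivProd (φ := φ)).symm, finsum_eq_sum_of_fintype,
    Fintype.sum_prod_type, Finset.sum_comm]
  apply Finset.sum_eq_zero
  intro h _
  have e1 : ∀ v : V, lf l S y ((SemidirectProduct.equivProd (φ := φ)).symm (v, h)) *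
      ρ.character ((SemidirectProduct.equivProd (φ := φ)).symm (v, h) * x) =
      (Nat.card V : F)⁻¹ * ∑ q : H ⧸ S, tt φ l S y q.out ⟨v, h⟩ *
        LinearMap.trace F W (ρ (SemidirectProduct.inl v) * ρ (SemidirectProduct.inr h * x)) := by
    intro v
    have e2 : (SemidirectProduct.equivProd (φ := φ)).symm (v, h) = ⟨v, h⟩ := rfl
    have e5 : ρ.character ((⟨v, h⟩ : V ⋊[φ] H) * x) =
        LinearMap.trace F W (ρ (SemidirectProduct.inl v) * ρ (SemidirectProduct.inr h * x)) := by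
      rw [← map_mul, ← mul_assoc, ← SemidirectProduct.mk_eq_inl_mul_inr]
      rfl
    rw [e2, e5, lf_eq, finsum_eq_sum_of_fintype, ← Finset.sum_mul, mul_assoc]
  rw [Finset.sum_congr rfl fun v _ => e1 v, ← Finset.mul_sum, Finset.sum_comm]
  have e3 : ∀ q : H ⧸ S, ∑ v : V, tt φ l S y q.out ⟨v, h⟩ *
      LinearMap.trace F W (ρ (SemidirectProduct.inl v) * ρ (SemidirectProduct.inr h * x)) = 0 := by
    intro q
    by_cases hh : (q.out)⁻¹ * h * q.out ∈ S
    · have e4 : ∀ v : V, tt φ l S y q.out ⟨v, h⟩ *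
          LinearMap.trace F W (ρ (SemidirectProduct.inl v) * ρ (SemidirectProduct.inr h * x)) =
          y ⟨_, hh⟩ * LinearMap.trace F W (((l (φ (q.out)⁻¹ v))⁻¹ • ρ (SemidirectProduct.inl v)) *
            ρ (SemidirectProduct.inr h * x)) := by
        intro v
        rw [tt_of l S y q.out ⟨v, h⟩ _ rfl, dif_pos hh, smul_mul_assoc, map_smul, smul_eq_mul]
        ring
      rw [Finset.sum_congr rfl fun v _ => e4 v, ← Finset.mul_sum, ← map_sum, ← Finset.sum_mul,
        ← finsum_eq_sum_of_fintype, tw_zero ρ h0, zero_mul, map_zero, mul_zero]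
    · apply Finset.sum_eq_zero
      intro v _
      rw [tt_of l S y q.out ⟨v, h⟩ _ rfl, dif_neg hh, zero_mul]
  rw [Finset.sum_congr rfl fun q _ => e3 q, Finset.sum_const_zero, mul_zero]

end Pool.Agent.P8H54.DL
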