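import Pool.Agent.P8H54.DL.Ce

/-! # Project DL, package CF: the blocks of the stabiliser and of the semidirect product -/

set_option autoImplicit false

open scoped Classical

noncomputable section

namespace Pool.Agent.P8H54.DL

open Pool.Agent.P8H58.DL Pool.Agent.Y63.NV

section

variable {F : Type} [Field F] {V H : Type} [CommGroup V] [Group H] {φ : H →* MulAut V}
  {p : ℕ} {l : V →* F} {S : Subgroup H}

theorem cl_class [Finite V] (hD : Dat p φ l S) {f : V ⋊[φ] H → F} (hf : IsClassFun f) :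
    IsClassFun (cl l S f) := by
  intro s t
  unfold cl
  rw [← finsum_comp_equiv (φ (s : H)).toEquiv]
  refine finsum_congr fun v => ?_
  have h1 : l ((φ (s : H)).toEquiv v) = l v := (hD.2 (s : H)).1 s.2 v
  rw [h1]
  congr 1
  have h2 : (⟨(φ (s : H)).toEquiv v, ((s * t * s⁻¹ : S) : H)⟩ : V ⋊[φ] H) =
      SemidirectProduct.inr (s : H) * ⟨v, (t : H)⟩ * (SemidirectProduct.inr (s : H))⁻¹ := by
    ext
    · simp
    · simp
  rw [h2, hf]

/-- the unit of the group algebra -/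
def sg (F : Type) [Field F] (G : Type) [Group G] : G → F := Pi.single 1 1

theorem single_class (G : Type) [Group G] : IsClassFun (sg F G) := by
  intro g x
  unfold sg
  by_cases hx : x = 1
  · subst hx
    simp
  · have h1 : g * x * g⁻¹ ≠ 1 := by
      intro h
      apply hx
      have h2 : g * x = g := by
        rw [mul_inv_eq_one] at h
        exact h
      exact mul_eq_left.1 h2
    rw [Pi.single_eq_of_ne h1, Pi.single_eq_of_ne hx]

theorem comp_zero [Finite V] {W : Type} [AddCommGroup W] [Module F W] (ρ : Representation F (V ⋊[φ] H) W)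
    (h0 : ∑ᶠ v : V, (l v)⁻¹ • ρ (SemidirectProduct.inl v) = 0) : comp l S ρ.character = 0 := by
  have : Fintype V := Fintype.ofFinite V
  funext s
  unfold comp
  have h1 : ∑ᶠ v : V, (l v)⁻¹ * ρ.character ⟨v, s⟩ = 0 := by
    have h2 : ∀ v : V, (l v)⁻¹ * ρ.character ⟨v, s⟩ =
        LinearMap.trace F W (((l v)⁻¹ • ρ (SemidirectProduct.inl v)) * ρ (SemidirectProduct.inr (s : H))) := by
      intro v
      rw [smul_mul_assoc, map_smul, smul_eq_mul, ← map_mul, ← SemidirectProduct.mk_eq_inl_mul_inr]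
      rfl
    rw [finsum_congr h2, finsum_eq_sum_of_fintype, ← map_sum, ← Finset.sum_mul, ← finsum_eq_sum_of_fintype, h0,
      zero_mul, map_zero]
  rw [h1, mul_zero]
  rfl

end

theorem cf : S_CF := by
  intro CA CB CC CD CE p _ F _ _ _ V H _ _ _ _ φ l S hD B hB
  have hfin : Finite (V ⋊[φ] H) := Finite.of_equiv _ (SemidirectProduct.equivProd (φ := φ)).symm
  have hne : ∀ θ : V ⋊[φ] H → F, IsIrrTrace θ → (∀ f : V ⋊[φ] H → F, IsClassFun f → ∀ x,
      ∑ᶠ g : V ⋊[φ] H, f g * θ (g * x) = B (cl l S f) * θ x) → comp l S θ ≠ 0 := by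
    intro θ hθ hB' h0
    obtain ⟨x, hx⟩ := irr_ne hθ
    obtain ⟨h1, h2, h3⟩ := CE CA p F V H φ l S hD (sg F S) (single_class S)
    have h4 := h3 θ hθ h0 x
    have h5 : B (sg F S) = 1 := hB.one
    rw [hB' _ h1, h2, h5, one_mul] at h4
    exact hx h4
  have hirr : ∀ θ : V ⋊[φ] H → F, IsIrrTrace θ → comp l S θ ≠ 0 → IsIrrTrace (comp l S θ) := by
    intro θ hθ h0
    obtain ⟨W, _, _, _, ρ, hρ, rfl⟩ := hθ
    rcases CA p F V H φ l S hD W ρ hρ with h | h
    · exact absurd (comp_zero ρ h) h0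
    · exact h
  have hin : ∀ θ : V ⋊[φ] H → F, IsIrrTrace θ → (∀ f : V ⋊[φ] H → F, IsClassFun f → ∀ x,
      ∑ᶠ g : V ⋊[φ] H, f g * θ (g * x) = B (cl l S f) * θ x) →
      ∀ y : S → F, IsClassFun y → ∀ s : S, ∑ᶠ t : S, y t * comp l S θ (t * s) = B y * comp l S θ s := by
    intro θ hθ hB' y hy s
    obtain ⟨h1, h2, -⟩ := CE CA p F V H φ l S hD y hy
    have h3 := CD p F V H φ l S hD θ hθ _ h1 _ (hB' _ h1) s
    rw [h2] at h3
    exact h3
  unfold lB
  refine Nat.card_congr (Equiv.ofBijective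
    (fun θ : {θ : V ⋊[φ] H → F // IsIrrTrace θ ∧ ∀ f : V ⋊[φ] H → F, IsClassFun f → ∀ x,
      ∑ᶠ g : V ⋊[φ] H, f g * θ (g * x) = B (cl l S f) * θ x} =>
      (⟨comp l S θ.1, hirr θ.1 θ.2.1 (hne θ.1 θ.2.1 θ.2.2), hin θ.1 θ.2.1 θ.2.2⟩ :
        {ψ : S → F // IsIrrTrace ψ ∧ ∀ f : S → F, IsClassFun f → ∀ x : S,
          ∑ᶠ g : S, f g * ψ (g * x) = B f * ψ x})) ⟨?_, ?_⟩)
  · intro θ θ' h
    apply Subtype.ext
    have h1 : comp l S θ.1 = comp l S θ'.1 := congrArg Subtype.val h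
    exact CB p F V H φ l S hD θ.1 θ'.1 θ.2.1 θ'.2.1 (hne θ.1 θ.2.1 θ.2.2) h1
  · rintro ⟨ψ, hψ, hψB⟩
    obtain ⟨θ, hθ, hθψ⟩ := CC p F V H φ l S hD ψ hψ
    refine ⟨⟨θ, hθ, ?_⟩, Subtype.ext hθψ⟩
    intro f hf x
    obtain ⟨-, B', hB', hB''⟩ := Pool.Agent.Y705.NV.schur Pool.Agent.Y914.NV.irr F _ θ hθ
    have h1 := CD p F V H φ l S hD θ hθ f hf (B' f) (hB'' f hf)
    obtain ⟨s, hs⟩ := irr_ne hψ
    have h2 := h1 s
    rw [hθψ, hψB _ (cl_class hD hf) s] at h2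
    rw [hB'' f hf x]
    change B' f * θ x = B (cl l S f) * θ x
    rw [mul_right_cancel₀ hs h2]

end Pool.Agent.P8H54.DL
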